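import Mathlib
import Pool.Agent.X302.TR.Stm

set_option autoImplicit false

namespace Pool.Agent.X181.TR

open Filter Topology Pool.Agent.X302.TR

theorem lim_tail (U : Filter ℕ) (lam : ℕ → ℕ → ℝ) (α : ℕ → ℝ) (m : ℕ) : ∀ (t j : ℕ),
    j + t + 1 = m →
    (∀ i, j ≤ i → i < m → Tendsto (lam i) U atTop) →
    (∀ i, j ≤ i → i + 1 < m → Tendsto (fun k => lam (i + 1) k / lam i k) U (𝓝 0)) →
    Tendsto (fun k => (∑ i ∈ Finset.Ico j m, lam i k * α i) / lam j k) U (𝓝 (α j)) := by
  intro t
  induction t with
  | zero =>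
    intro j hj H1 _
    have hm : m = j + 1 := by omega
    subst hm
    refine tendsto_const_nhds.congr' ?_
    filter_upwards [(H1 j le_rfl (by omega)).eventually_gt_atTop 0] with k hk
    simp only [Nat.Ico_succ_singleton, Finset.sum_singleton]
    field_simp
  | succ t ih =>
    intro j hj H1 H2
    have h1 := ih (j + 1) (by omega) (fun i hi hi' => H1 i (by omega) hi')
      (fun i hi hi' => H2 i (by omega) hi')
    have h2 := H2 j le_rfl (by omega)
    have h3 := (h1.mul h2).const_add (α j)
    rw [mul_zero, add_zero] at h3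
    refine h3.congr' ?_
    filter_upwards [(H1 j le_rfl (by omega)).eventually_gt_atTop 0,
      (H1 (j + 1) (by omega) (by omega)).eventually_gt_atTop 0] with k hk hk'
    rw [Finset.sum_eq_sum_Ico_succ_bot (show j < m by omega)]
    field_simp

theorem sgn_aux (U : Filter ℕ) (lam : ℕ → ℕ → ℝ) (α : ℕ → ℝ) (m : ℕ) : ∀ (t j : ℕ),
    j + t = m →
    (∀ i, j ≤ i → i < m → Tendsto (lam i) U atTop) →
    (∀ i, j ≤ i → i + 1 < m → Tendsto (fun k => lam (i + 1) k / lam i k) U (𝓝 0)) →
    (∀ i0, j ≤ i0 → i0 < m → (∀ i, j ≤ i → i < i0 → α i = 0) → α i0 ≤ 0) →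
    ∀ᶠ k in U, ∑ i ∈ Finset.Ico j m, lam i k * α i ≤ 0 := by
  intro t
  induction t with
  | zero =>
    intro j hj _ _ _
    have hm : m = j := by omega
    subst hm
    simp
  | succ t ih =>
    intro j hj H1 H2 H3
    have h0 : α j ≤ 0 := H3 j le_rfl (by omega) (fun i hi hi' => by omega)
    rcases lt_or_eq_of_le h0 with h | h
    · have hl := lim_tail U lam α m t j (by omega) H1 H2
      filter_upwards [hl.eventually_lt_const h, (H1 j le_rfl (by omega)).eventually_gt_atTop 0]
        with k hk hk'
      by_contra hc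
      push Not at hc
      exact absurd hk (not_lt.2 (div_pos hc hk').le)
    · have h1 := ih (j + 1) (by omega) (fun i hi hi' => H1 i (by omega) hi')
        (fun i hi hi' => H2 i (by omega) hi')
        (fun i0 hi0 hi0' hz => H3 i0 (by omega) hi0' (fun i hi hi' => by
          rcases eq_or_lt_of_le hi with e | e
          · rw [← e]; exact h
          · exact hz i e hi'))
      filter_upwards [h1] with k hk
      rw [Finset.sum_eq_sum_Ico_succ_bot (show j < m by omega), h, mul_zero, zero_add]
      exact hk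

theorem t_SGN : S_SGN := by
  intro U lam α j m H1 H2 H3
  rcases le_or_gt j m with h | h
  · exact sgn_aux U lam α m (m - j) j (by omega) H1 H2 H3
  · rw [Finset.Ico_eq_empty_of_le h.le]
    simp

end Pool.Agent.X181.TR
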